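import Pool.Agent.H.MP_0447a2_lc.C

set_option autoImplicit false

namespace Pool.Agent.H.MP_034cab_an
open Finset Filter Topology Real MeasureTheory Pool.Agent.H.MP_f44585_an
  Pool.Agent.H.MP_0447a2_lc ComplexConjugate

def Rd (p : ℕ → ℂ) : Prop := ∀ r : ℝ, 0 ≤ r → r < 1 → Summable fun n => ‖p n‖ * r ^ n

noncomputable def PS (p : ℕ → ℂ) (z : ℂ) : ℂ := ∑' n, p n * z ^ n

noncomputable def DD (p : ℕ → ℂ) (n : ℕ) : ℂ := (n + 1) * p (n + 1)

noncomputable def CP (p q : ℕ → ℂ) (n : ℕ) : ℂ := ∑ kl ∈ antidiagonal n, p kl.1 * q kl.2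

variable {p q : ℕ → ℂ}

theorem Rd.sum (h : Rd p) {z : ℂ} (hz : ‖z‖ < 1) : Summable fun n => ‖p n * z ^ n‖ := by
  simpa using h _ (norm_nonneg z) hz

theorem rd_of (h : ∀ r : ℝ, 0 < r → r < 1 → ∃ C, ∀ n, ‖p n‖ * r ^ n ≤ C) : Rd p ∧ Rd (DD p) := by
  have key : ∀ r : ℝ, 0 ≤ r → r < 1 → Summable fun n : ℕ => ‖p (n + 1)‖ * ((n + 1) * r ^ n) := by
    intro r r0 r1
    obtain ⟨C, hC⟩ := h ((1 + r) / 2) (by linarith) (by linarith)
    have e0 : 0 < (1 + r) / 2 := by linarith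
    have e1 : ‖r / ((1 + r) / 2)‖ < 1 := by
      rw [Real.norm_of_nonneg (by positivity), div_lt_one e0]; linarith
    refine Summable.of_nonneg_of_le (fun _ => by positivity) (fun n => ?_)
      (((summable_pow_mul_geometric_of_norm_lt_one 1 e1).add
        (summable_geometric_of_norm_lt_one e1)).mul_left (C / ((1 + r) / 2)))
    calc _ = ‖p (n + 1)‖ * ((1 + r) / 2) ^ (n + 1) / ((1 + r) / 2) *
          (n ^ 1 * (r / ((1 + r) / 2)) ^ n + (r / ((1 + r) / 2)) ^ n) := by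
          rw [div_pow r, pow_succ ((1 + r) / 2)]
          field_simp
      _ ≤ _ := by gcongr; exact hC _
  refine ⟨fun r r0 r1 => (summable_nat_add_iff 1).mp (Summable.of_nonneg_of_le
    (fun _ => by positivity) (fun n => ?_) (key r r0 r1)), fun r r0 r1 => (key r r0 r1).congr fun n => ?_⟩
  · refine mul_le_mul_of_nonneg_left ?_ (norm_nonneg _)
    nlinarith [pow_nonneg r0 n, pow_succ r n, mul_nonneg (Nat.cast_nonneg (α := ℝ) n) (pow_nonneg r0 n)]
  · rw [DD, norm_mul, ← Nat.cast_succ (R := ℂ), Complex.norm_natCast]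
    push_cast
    ring

theorem Rd.bd (h : Rd p) {r : ℝ} (r0 : 0 ≤ r) (r1 : r < 1) : ∃ C, ∀ n, ‖p n‖ * r ^ n ≤ C :=
  ⟨_, fun n => (h r r0 r1).le_tsum n fun _ _ => by positivity⟩

theorem Rd.dd (h : Rd p) : Rd (DD p) := (rd_of fun _ r0 r1 => h.bd r0.le r1).2

theorem Rd.der (h : Rd p) {z : ℂ} (hz : ‖z‖ < 1) : HasDerivAt (PS p) (PS (DD p) z) z := by
  obtain ⟨ρ, r0, r1⟩ := exists_between hz
  have r2 := (norm_nonneg z).trans r0.le
  have e1 : Summable fun n : ℕ => ‖p n‖ * (n * ρ ^ (n - 1)) := (summable_nat_add_iff 1).mp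
    ((h.dd ρ r2 r1).congr fun n => by
      rw [DD, norm_mul, ← Nat.cast_succ, Complex.norm_natCast, Nat.add_sub_cancel]
      ring)
  have e2 : ∀ (n : ℕ) (y : ℂ), y ∈ Metric.ball (0 : ℂ) ρ →
      ‖p n * (n * y ^ (n - 1))‖ ≤ ‖p n‖ * (n * ρ ^ (n - 1)) := fun n y hy => by
    rw [norm_mul, norm_mul, norm_pow, Complex.norm_natCast]
    gcongr
    exact (mem_ball_zero_iff.mp hy).le
  have e3 := hasDerivAt_tsum_of_isPreconnected e1 Metric.isOpen_ball
    (convex_ball 0 ρ).isPreconnected (g := fun n y => p n * y ^ n)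
    (fun n y _ => (hasDerivAt_pow n y).const_mul (p n)) e2 (mem_ball_zero_iff.mpr r0)
    (h.sum hz).of_norm (mem_ball_zero_iff.mpr r0)
  rw [(Summable.of_norm_bounded e1 fun n => e2 n z (mem_ball_zero_iff.mpr r0)).tsum_eq_zero_add]
    at e3
  refine e3.congr_deriv ?_
  rw [Nat.cast_zero, zero_mul, mul_zero, zero_add]
  refine tsum_congr fun n => ?_
  rw [DD, Nat.add_sub_cancel]
  push_cast
  ring

theorem cp_eq (p q : ℕ → ℂ) (z : ℂ) (n : ℕ) : CP p q n * z ^ n =
    ∑ kl ∈ antidiagonal n, (p kl.1 * z ^ kl.1) * (q kl.2 * z ^ kl.2) := by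
  rw [CP, sum_mul]
  refine sum_congr rfl fun kl h => ?_
  rw [← mem_antidiagonal.mp h]
  ring

theorem Rd.cp (h : Rd p) (h' : Rd q) : Rd (CP p q) := fun r r0 r1 => by
  have e : ‖(r : ℂ)‖ < 1 := by rwa [Complex.norm_real, Real.norm_of_nonneg r0]
  refine (summable_norm_sum_mul_antidiagonal_of_summable_norm (h.sum e) (h'.sum e)).congr
    fun n => ?_
  rw [← cp_eq, norm_mul, norm_pow, Complex.norm_real, Real.norm_of_nonneg r0]

theorem Rd.mul (h : Rd p) (h' : Rd q) {z : ℂ} (hz : ‖z‖ < 1) : PS (CP p q) z = PS p z * PS q z := by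
  rw [PS, PS, PS, tsum_mul_tsum_eq_tsum_sum_antidiagonal_of_summable_norm (h.sum hz) (h'.sum hz)]
  exact tsum_congr (cp_eq p q z)

theorem Rd.hp (h : Rd p) (h' : Rd q) : Rd fun n => p n * conj (q n) := fun r r0 r1 => by
  have e : √r < 1 := by rwa [Real.sqrt_lt' one_pos, one_pow]
  obtain ⟨C, hC⟩ := h'.bd (Real.sqrt_nonneg r) e
  refine Summable.of_nonneg_of_le (fun _ => by positivity) (fun n => ?_)
    ((h _ (Real.sqrt_nonneg r) e).mul_right C)
  calc _ = ‖p n‖ * √r ^ n * (‖q n‖ * √r ^ n) := by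
        rw [norm_mul, Complex.norm_conj, mul_mul_mul_comm, ← mul_pow, Real.mul_self_sqrt r0]
    _ ≤ _ := by gcongr; exact hC n

theorem orth (n m : ℕ) : ∫ t in (0 : ℝ)..1, ee t ^ n * conj (ee t ^ m) = if n = m then 1 else 0 := by
  split_ifs with h
  · simp [h, ← map_pow, Complex.mul_conj, Complex.normSq_eq_norm_sq, ee_norm]
  have e : ∀ t : ℝ, ee t ^ n * conj (ee t ^ m) =
      Complex.exp (Complex.I * (2 * π * (n - m)) * t) := fun t => by
    rw [← ee_nat, ← ee_nat, ee_conj, ← ee_add, ee]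
    congr 1
    push_cast
    ring
  have e2 := ee_int (n - m)
  simp only [e]
  rw [integral_exp_mul_complex (mul_ne_zero Complex.I_ne_zero (mul_ne_zero
    (by simp) (sub_ne_zero.mpr (by exact_mod_cast h))))]
  rw [ee] at e2
  push_cast at e2 ⊢
  rw [mul_one, e2, mul_zero, Complex.exp_zero, sub_self, zero_div]

theorem ps_cont (h : Summable fun n => ‖p n‖) : Continuous fun t => PS p (ee t) :=
  continuous_tsum (fun n => continuous_const.mul (ee_cont.pow n)) h fun n t => by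
    simp [ee_norm]

theorem pars0 (h : Summable fun n => ‖p n‖) (h' : Summable fun n => ‖q n‖) :
    HasSum (fun n => p n * conj (q n)) (∫ t in (0 : ℝ)..1, PS p (ee t) * conj (PS q (ee t))) := by
  have c := ee_cont
  have e1 := hasSum_integral_of_summable_integral_norm (μ := volume.restrict (Set.Ioc (0 : ℝ) 1))
    (F := fun (x : ℕ × ℕ) t => p x.1 * ee t ^ x.1 * conj (q x.2 * ee t ^ x.2))
    (fun x => Continuous.integrableOn_Ioc (by fun_prop))
    (by simpa [ee_norm] using h.mul_of_nonneg h' (fun _ => norm_nonneg _) fun _ => norm_nonneg _)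
  have e2 : ∀ x : ℕ × ℕ, ∫ t in Set.Ioc (0 : ℝ) 1, p x.1 * ee t ^ x.1 * conj (q x.2 * ee t ^ x.2) =
      p x.1 * conj (q x.2) * if x.1 = x.2 then 1 else 0 := fun x => by
    rw [← orth, ← intervalIntegral.integral_const_mul, intervalIntegral.integral_of_le zero_le_one]
    refine integral_congr_ae (Eventually.of_forall fun t => ?_)
    simp only [map_mul]
    ring
  have e3 : ∀ t, ∑' x : ℕ × ℕ, p x.1 * ee t ^ x.1 * conj (q x.2 * ee t ^ x.2) =
      PS p (ee t) * conj (PS q (ee t)) := fun t => by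
    rw [PS, PS, Complex.conj_tsum, tsum_mul_tsum_of_summable_norm (by simpa [ee_norm] using h)
      (by simpa [ee_norm] using h')]
  simp only [e2, e3] at e1
  rw [intervalIntegral.integral_of_le zero_le_one]
  have e4 := (Function.Injective.hasSum_iff (g := fun n : ℕ => (n, n))
    (fun a b e => (Prod.ext_iff.mp e).1) fun x hx => by
      rw [if_neg (fun e => hx ⟨x.1, Prod.ext rfl e⟩), mul_zero]).mpr e1
  simpa [Function.comp_def] using e4

theorem ps_sc (p : ℕ → ℂ) (r z : ℂ) : PS p (r * z) = PS (fun n => p n * r ^ n) z :=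
  tsum_congr fun n => by rw [mul_pow, mul_assoc]

theorem Rd.cont (h : Rd p) {x : ℝ} (x0 : 0 ≤ x) (x1 : x < 1) :
    Continuous fun t => PS p (√x * ee t) := by
  simp only [ps_sc]
  exact ps_cont (h.sum (by
    rwa [Complex.norm_real, Real.norm_of_nonneg (sqrt_nonneg x), Real.sqrt_lt' one_pos, one_pow]))

theorem Rd.pars (h : Rd p) (h' : Rd q) {x : ℝ} (x0 : 0 ≤ x) (x1 : x < 1) :
    ∫ t in (0 : ℝ)..1, PS p (√x * ee t) * conj (PS q (√x * ee t)) =
      PS (fun n => p n * conj (q n)) x := by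
  have e : ‖(√x : ℂ)‖ < 1 := by
    rwa [Complex.norm_real, Real.norm_of_nonneg (sqrt_nonneg x), Real.sqrt_lt' one_pos, one_pow]
  simp only [ps_sc]
  rw [← (pars0 (h.sum e) (h'.sum e)).tsum_eq]
  refine tsum_congr fun n => ?_
  rw [map_mul, map_pow, Complex.conj_ofReal, mul_mul_mul_comm, ← mul_pow, ← Complex.ofReal_mul,
    Real.mul_self_sqrt x0]

theorem ps0 (p : ℕ → ℂ) : PS p 0 = p 0 := by
  rw [PS, tsum_eq_single 0 fun n hn => by simp [hn]]
  simp

theorem Rd.mean (h : Rd p) {x : ℝ} (x0 : 0 ≤ x) (x1 : x < 1) :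
    ∫ t in (0 : ℝ)..1, (PS p (√x * ee t)).re = (p 0).re := by
  have e1 : ∀ z, PS (Pi.single 0 1) z = 1 := fun z => by
    rw [PS, tsum_eq_single 0 fun n hn => by simp [hn]]
    simp
  have e2 := h.pars (q := Pi.single 0 1) (fun r _ _ => summable_of_ne_finset_zero (s := {0})
    fun n hn => by simp [notMem_singleton.mp hn]) x0 x1
  simp only [e1, map_one, mul_one] at e2
  rw [PS, tsum_eq_single 0 fun n hn => by simp [hn]] at e2
  have e3 := congrArg Complex.re e2
  rw [← Complex.reCLM_apply, ← ContinuousLinearMap.intervalIntegral_comp_comm _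
    ((h.cont x0 x1).intervalIntegrable _ _)] at e3
  simpa using e3

theorem cmp {f f' B B' : ℝ → ℝ} (h0 : f 0 ≤ B 0) (hf : ∀ x, 0 ≤ x → x < 1 → HasDerivAt f (f' x) x)
    (hB : ∀ x, 0 ≤ x → x < 1 → HasDerivAt B (B' x) x) (h : ∀ x, 0 ≤ x → x < 1 → f' x ≤ B' x)
    {x : ℝ} (x0 : 0 ≤ x) (x1 : x < 1) : f x ≤ B x :=
  image_le_of_deriv_right_le_deriv_boundary (a := 0) (b := x)
    (fun y hy => (hf y hy.1 (hy.2.trans_lt x1)).continuousAt.continuousWithinAt)
    (fun y hy => (hf y hy.1 (hy.2.trans x1)).hasDerivWithinAt) h0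
    (fun y hy => (hB y hy.1 (hy.2.trans_lt x1)).continuousAt.continuousWithinAt)
    (fun y hy => (hB y hy.1 (hy.2.trans x1)).hasDerivWithinAt)
    (fun y hy => h y hy.1 (hy.2.trans x1)) ⟨x0, le_rfl⟩

theorem Rd.derr (h : Rd p) (x : ℝ) (x0 : 0 ≤ x) (x1 : x < 1) :
    HasDerivAt (fun y : ℝ => (PS p y).re) (PS (DD p) x).re x :=
  (h.der (by rwa [Complex.norm_real, Real.norm_of_nonneg x0])).real_of_complex

theorem int_re {g : ℝ → ℂ} (hg : Continuous g) :
    (∫ t in (0 : ℝ)..1, g t).re = ∫ t in (0 : ℝ)..1, (g t).re := by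
  rw [← Complex.reCLM_apply, ← ContinuousLinearMap.intervalIntegral_comp_comm _
    (hg.intervalIntegrable _ _)]
  rfl

theorem third {a : ℕ → ℂ} (h : Rd a) (h0 : a 0 = 1) (hp : ∀ z, ‖z‖ < 1 → 0 ≤ (PS a z).re) {C : ℝ}
    (hB : ∀ z, ‖z‖ < 1 → (1 - ‖z‖ ^ 2) * ‖PS (DD a) z‖ ≤ C) {x : ℝ} (x0 : 0 ≤ x) (x1 : x < 1) :
    (PS (fun n => CP a a n * conj (a n)) x).re ≤ 1 - 2 * C ^ 2 * log (1 - x) := by
  have c1 := h.cp h
  have e1 := c1.hp h
  obtain ⟨e, he⟩ : ∃ e, e = fun n => CP a a n * conj (a n) := ⟨_, rfl⟩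
  have e2 : DD (fun n => n * e n) = fun n => DD (CP a a) n * conj (DD a n) := by
    ext n
    simp only [he, DD, map_mul, map_add, map_natCast, map_one]
    push_cast
    ring
  rw [← he] at e1 ⊢
  have e3 : Rd fun n => n * e n := fun r r0 r1 => (summable_nat_add_iff 1).mp
    (((e1.dd r r0 r1).mul_right r).congr fun n => by simp only [DD, pow_succ]; push_cast; ring)
  have e4 : ∀ y : ℝ, 0 ≤ y → y < 1 → PS (fun n => n * e n) y = y * PS (DD e) y := fun y y0 y1 => by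
    rw [PS, (e3.sum (by rwa [Complex.norm_real, Real.norm_of_nonneg y0])).of_norm.tsum_eq_zero_add,
      PS, ← tsum_mul_left]
    simp only [Nat.cast_zero, zero_mul, zero_add, DD]
    exact tsum_congr fun n => by push_cast; ring
  have e5 : ∀ y : ℝ, 0 ≤ y → y < 1 → (PS (DD fun n => n * e n) y).re ≤ 2 * C ^ 2 / (1 - y) ^ 2 := by
    intro y y0 y1
    have b1 : ∀ t, ‖√y * ee t‖ ^ 2 = y := fun t => by
      rw [norm_mul, ee_norm, mul_one, Complex.norm_real, Real.norm_of_nonneg (sqrt_nonneg y),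
        Real.sq_sqrt y0]
    have b2 : ∀ t, ‖√y * ee t‖ < 1 := fun t => by
      nlinarith [b1 t, norm_nonneg (√y * ee t)]
    have b3 := h.cont y0 y1
    have b4 := h.dd.cont y0 y1
    have b5 := c1.dd.cont y0 y1
    rw [e2, ← c1.dd.pars h.dd y0 y1, int_re (by fun_prop)]
    calc _ ≤ ∫ t in (0 : ℝ)..1, 2 * C ^ 2 / (1 - y) ^ 2 * (PS a (√y * ee t)).re := by
          refine intervalIntegral.integral_mono_on zero_le_one (Continuous.intervalIntegrable
            (by fun_prop) _ _) (Continuous.intervalIntegrable (by fun_prop) _ _) fun t _ => ?_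
          have d1 : PS (DD (CP a a)) (√y * ee t) = 2 * PS a (√y * ee t) * PS (DD a) (√y * ee t) := by
            refine ((c1.der (b2 t)).unique (((h.der (b2 t)).mul (h.der (b2 t))).congr_of_eventuallyEq
              ?_)).trans (by ring)
            filter_upwards [Metric.isOpen_ball.mem_nhds (mem_ball_zero_iff.mpr (b2 t))] with z hz
            exact h.mul h (mem_ball_zero_iff.mp hz)
          have d2 := pow_le_pow_left₀ (mul_nonneg (by rw [b1]; linarith) (norm_nonneg _))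
            (hB _ (b2 t)) 2
          rw [b1, mul_pow, mul_comm, ← le_div_iff₀ (pow_pos (by linarith) 2)] at d2
          rw [d1, mul_assoc, Complex.mul_conj, Complex.normSq_eq_norm_sq, Complex.re_mul_ofReal,
            mul_div_assoc]
          simp only [Complex.mul_re, Complex.re_ofNat, Complex.im_ofNat, zero_mul, sub_zero]
          nlinarith [hp _ (b2 t)]
      _ = _ := by rw [intervalIntegral.integral_const_mul, h.mean y0 y1, h0]; simp
  have e6 : ∀ y : ℝ, 0 ≤ y → y < 1 → (PS (fun n => n * e n) y).re ≤ 2 * C ^ 2 * ((1 - y)⁻¹ - 1) :=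
    fun y y0 y1 => cmp (B := fun y => 2 * C ^ 2 * ((1 - y)⁻¹ - 1)) (by simp [ps0]) e3.derr 
      (fun z z0 z1 => by
      have := ((((hasDerivAt_id z).const_sub 1).inv (sub_pos.mpr z1).ne').sub_const 1).const_mul
        (2 * C ^ 2)
      exact this.congr_deriv (by simp only [id]; ring)) e5 y0 y1
  have e7 : ∀ y : ℝ, 0 ≤ y → y < 1 → (PS (DD e) y).re ≤ 2 * C ^ 2 / (1 - y) := fun y y0 y1 => by
    rcases y0.eq_or_lt with rfl | y2
    · have := e5 0 le_rfl one_pos
      simpa [ps0, DD] using this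
    have := e6 y y0 y1
    rw [e4 y y0 y1, Complex.re_ofReal_mul] at this
    refine le_of_mul_le_mul_left (this.trans (le_of_eq ?_)) y2
    have := (sub_pos.mpr y1).ne'
    field_simp
    ring
  refine cmp (B := fun y => 1 - 2 * C ^ 2 * log (1 - y)) (by simp [ps0, he, CP, h0]) e1.derr
    (fun z z0 z1 => ?_) e7 x0 x1
  have := ((((hasDerivAt_id z).const_sub 1).log (sub_pos.mpr z1).ne').const_mul
    (2 * C ^ 2)).const_sub 1
  exact this.congr_deriv (by simp only [id]; ring)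

theorem second {a : ℕ → ℂ} (h : Rd a) (h0 : a 0 = 1) (hp : ∀ z, ‖z‖ < 1 → 0 ≤ (PS a z).re) {C : ℝ}
    (hB : ∀ z, ‖z‖ < 1 → (1 - ‖z‖ ^ 2) * ‖PS (DD a) z‖ ≤ C) {x : ℝ} (x0 : 0 ≤ x) (x1 : x < 1)
    {l : ℝ} (hl : 0 < l) :
    ∑' n, ‖a n‖ ^ 2 * x ^ n ≤ l + (1 - 2 * C ^ 2 * log (1 - x)) / l := by
  have c1 := h.cp h
  have b2 : ∀ t, ‖√x * ee t‖ < 1 := fun t => by
    rwa [norm_mul, ee_norm, mul_one, Complex.norm_real, Real.norm_of_nonneg (sqrt_nonneg x),
      Real.sqrt_lt' one_pos, one_pow]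
  have b3 := h.cont x0 x1
  have b5 := c1.cont x0 x1
  have e1 := third h h0 hp hB x0 x1
  rw [← c1.pars h x0 x1, int_re (by fun_prop)] at e1
  have e2 : ∑' n, ‖a n‖ ^ 2 * x ^ n = (PS (fun n => a n * conj (a n)) x).re := by
    rw [← Complex.ofReal_re (∑' _, _), Complex.ofReal_tsum]
    refine congrArg _ (tsum_congr fun n => ?_)
    simp only [Complex.mul_conj, Complex.normSq_eq_norm_sq]
    push_cast
    rfl
  rw [e2, ← h.pars h x0 x1, int_re (by fun_prop)]
  calc _ ≤ ∫ t in (0 : ℝ)..1, l * (PS a (√x * ee t)).re + l⁻¹ * (PS (CP a a) (√x * ee t) *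
        conj (PS a (√x * ee t))).re - (PS (CP a a) (√x * ee t)).re := by
        refine intervalIntegral.integral_mono_on zero_le_one (Continuous.intervalIntegrable
          (by fun_prop) _ _) (Continuous.intervalIntegrable (by fun_prop) _ _) fun t _ => ?_
        have d1 := hp _ (b2 t)
        rw [h.mul h (b2 t)]
        generalize PS a (√x * ee t) = w at d1
        simp only [Complex.mul_re, Complex.mul_im, Complex.conj_re, Complex.conj_im]
        have d2 : 0 ≤ l⁻¹ * (w.re * ((w.re - l) ^ 2 + w.im ^ 2)) := by positivity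
        have d3 : l⁻¹ * l = 1 := inv_mul_cancel₀ hl.ne'
        have d4 : l⁻¹ * (w.re * ((w.re - l) ^ 2 + w.im ^ 2)) = l⁻¹ * (w.re * (w.re ^ 2 + w.im ^ 2))
          - 2 * w.re ^ 2 * (l⁻¹ * l) + l * w.re * (l⁻¹ * l) := by ring
        rw [d3] at d4
        nlinarith
    _ ≤ _ := by
        rw [intervalIntegral.integral_sub (Continuous.intervalIntegrable (by fun_prop) _ _)
          (Continuous.intervalIntegrable (by fun_prop) _ _), intervalIntegral.integral_add
          (Continuous.intervalIntegrable (by fun_prop) _ _) (Continuous.intervalIntegrable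
          (by fun_prop) _ _), intervalIntegral.integral_const_mul,
          intervalIntegral.integral_const_mul, h.mean x0 x1, c1.mean x0 x1, div_eq_inv_mul]
        simp only [CP, h0, Nat.antidiagonal_zero, sum_singleton, mul_one, Complex.one_re]
        linarith [mul_le_mul_of_nonneg_left e1 (inv_pos.mpr hl).le]

theorem upper {a : ℕ → ℂ} (h : Rd a) (h0 : a 0 = 1) (hp : ∀ z, ‖z‖ < 1 → 0 ≤ (PS a z).re) {C : ℝ}
    (hB : ∀ z, ‖z‖ < 1 → (1 - ‖z‖ ^ 2) * ‖PS (DD a) z‖ ≤ C) {N : ℕ} (hN : 3 ≤ N) :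
    ∑ n ∈ Icc 1 N, ‖a n‖ ^ 2 ≤ 2 * (2 + 4 * C ^ 2) * √(log N) := by
  have n0 : (3 : ℝ) ≤ N := by exact_mod_cast hN
  have n1 : (2 * N : ℝ)⁻¹ ≤ 1 / 2 := by rw [inv_le_comm₀ (by linarith) (by norm_num)]; linarith
  have n2 : (0 : ℝ) < (2 * N : ℝ)⁻¹ := by positivity
  have l1 : 1 ≤ log N := by
    rw [Real.le_log_iff_exp_le (by linarith)]
    linarith [Real.exp_one_lt_d9]
  have l2 : 1 ≤ √(log N) := Real.one_le_sqrt.mpr l1
  have e1 := second h h0 hp hB (x := 1 - (2 * N : ℝ)⁻¹) (by linarith) (by linarith)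
    (l := √(log N)) (by linarith)
  have e2 : 1 / 2 ≤ (1 - (2 * N : ℝ)⁻¹) ^ N := by
    refine le_trans (le_of_eq ?_) (one_add_mul_le_pow (a := -(2 * N : ℝ)⁻¹) (by linarith) N)
    field_simp
    ring
  have e3 : ∑ n ∈ Icc 1 N, ‖a n‖ ^ 2 * (1 / 2) ≤ ∑' n, ‖a n‖ ^ 2 * (1 - (2 * N : ℝ)⁻¹) ^ n := by
    refine le_trans (sum_le_sum fun n hn => mul_le_mul_of_nonneg_left (e2.trans
      (pow_le_pow_of_le_one (by linarith) (by linarith) (mem_Icc.mp hn).2)) (sq_nonneg _))
      (Summable.sum_le_tsum _ (fun n _ => mul_nonneg (sq_nonneg _) (pow_nonneg (by linarith) n)) ?_)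
    simpa [sq] using h.hp h (1 - (2 * N : ℝ)⁻¹) (by linarith) (by linarith)
  rw [← sum_mul] at e3
  rw [sub_sub_cancel, log_inv, log_mul two_ne_zero (by linarith)] at e1
  have e4 : (1 - 2 * C ^ 2 * -(log 2 + log N)) / √(log N) ≤ (1 + 4 * C ^ 2) * √(log N) := by
    rw [div_le_iff₀ (by linarith), mul_assoc _ √_, Real.mul_self_sqrt (by linarith)]
    nlinarith [Real.log_two_lt_d9, sq_nonneg C]
  linarith

end Pool.Agent.H.MP_034cab_an
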