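import Pool.Agent.H.MP_034cab_an.A

set_option autoImplicit false

namespace Pool.Agent.H.MP_034cab_an
open Finset Filter Topology Real MeasureTheory Pool.Agent.H.MP_f44585_an
  Pool.Agent.H.MP_0447a2_lc ComplexConjugate Polynomial

def TP (d : ℕ) (w : ℝ → ℂ) : Prop :=
  ∃ Q : ℂ[X], Q.natDegree ≤ 2 * d ∧ ∀ t, Q.eval (ee t) = w t * ee t ^ d

variable {d d' : ℕ} {w w' : ℝ → ℂ}

theorem ee_cj (t : ℝ) : ee t * conj (ee t) = 1 := by
  rw [ee_conj, ← ee_add, add_neg_cancel, ee_zero]

theorem TP.eq (h : TP d w) : ∃ Q : ℂ[X], w = fun t => Q.eval (ee t) * conj (ee t) ^ d := by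
  obtain ⟨Q, -, h⟩ := h
  exact ⟨Q, funext fun t => by rw [h, mul_assoc, ← mul_pow, ee_cj, one_pow, mul_one]⟩

theorem TP.cont (h : TP d w) : Continuous w := by
  obtain ⟨Q, rfl⟩ := h.eq
  have := ee_cont
  fun_prop

theorem TP.per (h : TP d w) : Function.Periodic w 1 := fun t => by
  obtain ⟨Q, rfl⟩ := h.eq
  have := ee_int 1
  rw [Int.cast_one] at this
  simp only [ee_add, this, mul_one]

theorem TP.mul (h : TP d w) (h' : TP d' w') : TP (d + d') fun t => w t * w' t := by
  obtain ⟨Q, h1, h2⟩ := h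
  obtain ⟨R, h3, h4⟩ := h'
  exact ⟨Q * R, natDegree_mul_le.trans (by omega), fun t => by rw [eval_mul, h2, h4]; ring⟩

theorem TP.poly {P : ℂ[X]} (h : P.natDegree ≤ d) : TP d fun t => P.eval (ee t) :=
  ⟨P * X ^ d, natDegree_mul_le.trans (by rw [natDegree_X_pow]; omega), fun t => by simp⟩

theorem TP.const (c : ℂ) : TP d fun _ => c := by
  simpa using TP.poly (P := C c) (d := d) (by simp)

theorem TP.mono (h : TP d w) (h' : d ≤ d') : TP d' w := by
  simpa [Nat.add_sub_cancel' h'] using h.mul (TP.const (d := d' - d) 1)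

theorem TP.add (h : TP d w) (h' : TP d w') : TP d fun t => w t + w' t := by
  obtain ⟨Q, h1, h2⟩ := h
  obtain ⟨R, h3, h4⟩ := h'
  exact ⟨Q + R, natDegree_add_le_of_degree_le h1 h3, fun t => by rw [eval_add, h2, h4]; ring⟩

theorem TP.cj (h : TP d w) : TP d fun t => conj (w t) := by
  obtain ⟨Q, h1, h2⟩ := h
  refine ⟨∑ j ∈ range (2 * d + 1), monomial (2 * d - j) (conj (Q.coeff j)),
    natDegree_sum_le_of_forall_le _ _ fun j _ => (natDegree_monomial_le _).trans (by omega),
    fun t => ?_⟩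
  have e := congrArg (fun z => conj z * ee t ^ (2 * d)) (h2 t)
  simp only [eval_eq_sum_range' (Nat.lt_succ_of_le h1), map_sum, map_mul, map_pow, sum_mul] at e
  rw [eval_finset_sum]
  refine ((sum_congr rfl fun j hj => ?_).trans e).trans ?_
  · obtain ⟨i, hi⟩ := Nat.exists_eq_add_of_le (Nat.lt_succ_iff.mp (mem_range.mp hj))
    rw [eval_monomial, hi, Nat.add_sub_cancel_left, pow_add, mul_assoc, ← mul_assoc (_ ^ j),
      ← mul_pow, mul_comm (conj _) (ee t), ee_cj, one_pow, one_mul]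
  · rw [two_mul, pow_add, mul_assoc, ← mul_assoc (_ ^ d), ← mul_pow, mul_comm (conj _) (ee t), ee_cj,
      one_pow, one_mul]

theorem TP.re (h : TP d w) : TP d fun t => ((w t).re : ℝ) := by
  simpa [Complex.re_eq_add_conj, div_eq_mul_inv] using (h.add h.cj).mul (TP.const (d := 0) 2⁻¹)

theorem ps_poly (P : ℂ[X]) (z : ℂ) : PS P.coeff z = P.eval z := by
  rw [PS, eval_eq_sum_range, tsum_eq_sum (s := range (P.natDegree + 1)) fun n hn => by
    rw [coeff_eq_zero_of_natDegree_lt (by simpa using hn), zero_mul]]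

theorem parsP (P Q : ℂ[X]) : HasSum (fun n => P.coeff n * conj (Q.coeff n))
    (∫ t in (0 : ℝ)..1, P.eval (ee t) * conj (Q.eval (ee t))) := by
  have e : ∀ R : ℂ[X], Summable fun n => ‖R.coeff n‖ := fun R =>
    summable_of_ne_finset_zero (s := R.support) fun n hn => by simpa using hn
  simpa only [ps_poly] using pars0 (e P) (e Q)

theorem pcoef (P : ℂ[X]) (n : ℕ) : ∫ t in (0 : ℝ)..1, P.eval (ee t) * conj (ee t ^ n) = P.coeff n := by
  have e := (parsP P (X ^ n)).tsum_eq
  rw [tsum_eq_single n fun m hm => by simp [coeff_X_pow, hm]] at e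
  simpa using e.symm

theorem TP.int (h : TP d w) {N : ℕ} (hN : d < N) : ∫ t in (0 : ℝ)..1, w t * ee t ^ N = 0 := by
  obtain ⟨Q, -, h2⟩ := h
  obtain ⟨i, rfl⟩ := Nat.exists_eq_add_of_lt hN
  have e := pcoef (Q * X ^ (i + 1)) 0
  simp only [eval_mul, h2, eval_pow, eval_X, pow_zero, map_one, mul_one, mul_coeff_zero,
    coeff_X_pow] at e
  simpa [pow_add, mul_assoc] using e

theorem TP.conv (h : TP d w) (h' : Continuous w') (hp : Function.Periodic w' 1) :
    TP d fun t => ∫ s in (0 : ℝ)..1, w s * w' (t - s) := by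
  have p1 := h.per
  obtain ⟨Q, h1, h2⟩ := h
  have c := ee_cont
  refine ⟨∑ j ∈ range (2 * d + 1), monomial j
    (∫ s in (0 : ℝ)..1, Q.coeff j * (conj (ee s) ^ j * ee s ^ d * w' s)),
    natDegree_sum_le_of_forall_le _ _ fun j hj => (natDegree_monomial_le _).trans
      (Nat.lt_succ_iff.mp (mem_range.mp hj)), fun t => ?_⟩
  have e1 := intervalIntegral.integral_comp_sub_left (a := 0) (b := 1)
    (fun s => w (t - s) * w' s) t
  have e2 : Function.Periodic (fun s => w (t - s) * w' s) 1 := fun s => by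
    simp only [hp s, ← sub_sub, p1.sub_eq]
  have e3 := e2.intervalIntegral_add_eq (t - 1) 0
  simp only [sub_sub_cancel, sub_zero, sub_add_cancel, zero_add] at e1 e3
  simp only [eval_finset_sum, eval_monomial, ← intervalIntegral.integral_mul_const, e1, e3]
  rw [← intervalIntegral.integral_finset_sum fun j _ => Continuous.intervalIntegrable
    (by fun_prop) _ _]
  refine intervalIntegral.integral_congr fun s _ => ?_
  have e4 : ee t = ee (t - s) * ee s := by rw [← ee_add, sub_add_cancel]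
  have e5 := h2 (t - s)
  rw [eval_eq_sum_range' (Nat.lt_succ_of_le h1)] at e5
  rw [e4, mul_pow, mul_mul_mul_comm, ← e5, sum_mul]
  refine sum_congr rfl fun j _ => ?_
  have e6 : ee s ^ j * conj (ee s) ^ j = 1 := by rw [← mul_pow, ee_cj, one_pow]
  linear_combination Q.coeff j * ee (t - s) ^ j * w' s * ee s ^ d * e6

theorem ker {n : ℕ} (hn : 1 ≤ n) : ∃ K : ℝ → ℝ, TP (4 * n) (fun s => K s) ∧ (∀ s, 0 ≤ K s) ∧
    ∫ s in (0 : ℝ)..1, K s = 1 ∧ ∫ s in (0 : ℝ)..1, K s * ‖1 - ee s‖ ≤ 30 / n := by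
  have c := ee_cont
  have n0 : (1 : ℝ) ≤ n := by exact_mod_cast hn
  obtain ⟨D, hD⟩ : ∃ D : ℝ → ℂ, D = fun s => ∑ j ∈ range n, ee s ^ j := ⟨_, rfl⟩
  have t1 : TP n D := by
    have := TP.poly (P := ∑ j ∈ range n, X ^ j) (d := n) (natDegree_sum_le_of_forall_le _ _
      fun j hj => (natDegree_X_pow_le j).trans (mem_range.mp hj).le)
    simpa [hD, eval_finset_sum] using this
  have c1 := t1.cont
  have e1 : ∫ s in (0 : ℝ)..1, ‖D s‖ ^ 2 = n := by
    have b1 : ∫ s in (0 : ℝ)..1, D s * conj (D s) = n := by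
      simp only [hD, map_sum, sum_mul_sum]
      rw [intervalIntegral.integral_finset_sum fun j _ => Continuous.intervalIntegrable
        (by fun_prop) _ _, sum_congr rfl fun i hi => (intervalIntegral.integral_finset_sum
        fun j _ => Continuous.intervalIntegrable (by fun_prop) _ _).trans
        ((sum_congr rfl fun j _ => orth i j).trans ((sum_ite_eq _ _ _).trans (if_pos hi)))]
      simp
    have b2 := congrArg Complex.re b1
    rw [int_re (by fun_prop)] at b2
    simpa [Complex.mul_conj, Complex.normSq_eq_norm_sq, ← Complex.ofReal_pow] using b2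
  obtain ⟨κ, hκ⟩ : ∃ κ, κ = ∫ s in (0 : ℝ)..1, ‖D s‖ ^ 4 := ⟨_, rfl⟩
  have e2 : (n : ℝ) ^ 3 / 224 ≤ κ := by
    have b0 : (0 : ℝ) < (14 * n : ℝ)⁻¹ := by positivity
    calc _ = ∫ s in (0 : ℝ)..(14 * n : ℝ)⁻¹, (n / 2 : ℝ) ^ 4 := by simp; field_simp; norm_num
      _ ≤ ∫ s in (0 : ℝ)..(14 * n : ℝ)⁻¹, ‖D s‖ ^ 4 := by
        refine intervalIntegral.integral_mono_on b0.le (Continuous.intervalIntegrable
          (by fun_prop) _ _) (Continuous.intervalIntegrable (by fun_prop) _ _) fun s hs =>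
          pow_le_pow_left₀ (by positivity) ?_ 4
        have b1 : ‖∑ j ∈ range n, (1 - ee s ^ j)‖ ≤ n / 2 := by
          refine (norm_sum_le _ _).trans ((sum_le_card_nsmul _ _ (1 / 2) fun j hj => ?_).trans
            (by simp [div_eq_mul_inv]))
          rw [← ee_zero, ← ee_nat]
          refine (ee_sub _ _).trans ?_
          rw [zero_sub, abs_neg, abs_of_nonneg (mul_nonneg j.cast_nonneg hs.1)]
          have b2 : (j : ℝ) * s ≤ n * (14 * n : ℝ)⁻¹ := mul_le_mul
            (by exact_mod_cast (mem_range.mp hj).le) hs.2 hs.1 n.cast_nonneg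
          rw [show (n : ℝ) * (14 * n : ℝ)⁻¹ = 1 / 14 by field_simp] at b2
          linarith
        rw [sum_sub_distrib, sum_const, card_range, nsmul_one] at b1
        have b3 := norm_sub_norm_le (n : ℂ) (D s)
        rw [Complex.norm_natCast, hD] at b3
        rw [hD]
        linarith
      _ ≤ _ := hκ ▸ intervalIntegral.integral_mono_interval le_rfl b0.le
          (inv_le_one_of_one_le₀ (by linarith)) (Eventually.of_forall fun _ => by positivity)
          (Continuous.intervalIntegrable (by fun_prop) _ _)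
  have k0 : 0 < κ := lt_of_lt_of_le (by positivity) e2
  refine ⟨fun s => κ⁻¹ * ‖D s‖ ^ 4, ?_, fun s => by positivity, ?_, ?_⟩
  · have := (TP.const (d := 0) (κ⁻¹ : ℝ)).mul ((t1.mul t1.cj).mul (t1.mul t1.cj))
    simp only [Complex.mul_conj, Complex.normSq_eq_norm_sq, ← Complex.ofReal_mul, ← pow_add] at this
    exact this.mono (by omega)
  · rw [intervalIntegral.integral_const_mul, ← hκ, inv_mul_cancel₀ k0.ne']
  calc _ ≤ ∫ s in (0 : ℝ)..1, 15 / n * κ⁻¹ * ‖D s‖ ^ 4 + n / 15 * κ⁻¹ * ‖D s‖ ^ 2 := by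
        refine intervalIntegral.integral_mono_on zero_le_one (Continuous.intervalIntegrable
          (by fun_prop) _ _) (Continuous.intervalIntegrable (by fun_prop) _ _) fun s _ => ?_
        have b1 : ‖1 - ee s‖ * ‖D s‖ ≤ 2 := by
          rw [← norm_mul, hD, mul_neg_geom_sum]
          exact (norm_sub_le _ _).trans (by simp [ee_norm]; norm_num)
        have b2 := pow_le_pow_left₀ (by positivity) b1 2
        have b3 : ‖1 - ee s‖ ≤ 15 / n + n / 60 * ‖1 - ee s‖ ^ 2 := by
          have : 0 ≤ n / 60 * (‖1 - ee s‖ - 30 / n) ^ 2 := by positivity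
          refine sub_nonneg.mp (this.trans_eq ?_)
          field_simp
          ring
        have b4 : 0 ≤ κ⁻¹ * ‖D s‖ ^ 2 * n := by positivity
        nlinarith [mul_le_mul_of_nonneg_left b3 (by positivity : 0 ≤ κ⁻¹ * ‖D s‖ ^ 4),
          mul_le_mul_of_nonneg_left b2 b4]
    _ ≤ _ := by
        rw [intervalIntegral.integral_add (Continuous.intervalIntegrable (by fun_prop) _ _)
          (Continuous.intervalIntegrable (by fun_prop) _ _), intervalIntegral.integral_const_mul,
          intervalIntegral.integral_const_mul, e1, ← hκ, inv_mul_cancel_right₀ k0.ne']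
        have b1 : n / 15 * κ⁻¹ * n ≤ 15 / n := by
          rw [mul_right_comm, ← div_eq_mul_inv, div_le_div_iff₀ k0 (by linarith)]
          nlinarith
        linarith [show (30 : ℝ) / n = 15 / n + 15 / n by ring]

theorem smooth {u : ℝ → ℝ} {L : ℕ} (hL : 1 ≤ L) (h1 : TP d fun t => u t) (h2 : ∀ t, 0 ≤ u t)
    (h3 : ∀ t s, |u t - u s| ≤ L * ‖ee t - ee s‖) : ∃ w : ℝ → ℝ, TP (d + 120 * L) (fun t => w t) ∧
      (∀ t, 0 ≤ w t ∧ w t ≤ u t ∧ w t ≤ 2 ∧ u t ≤ w t * (2 + u t)) ∧
      ∀ t s, |w t - w s| ≤ 3 * L * ‖ee t - ee s‖ := by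
  obtain ⟨K, k1, k2, k3, k4⟩ := ker (n := 30 * L) (by omega)
  have c := ee_cont
  have L0 : (1 : ℝ) ≤ L := by exact_mod_cast hL
  have c1 : Continuous K := Complex.continuous_re.comp k1.cont
  have c2 : Continuous u := Complex.continuous_re.comp h1.cont
  have p0 : ∀ t, 0 < 1 + u t := fun t => by linarith [h2 t]
  obtain ⟨y, c3, i0, i1, i2, i3⟩ : ∃ y : ℝ → ℝ, Continuous y ∧ Function.Periodic y 1 ∧
      (∀ t, y t * (1 + u t) = 1) ∧ (∀ t, 0 < y t) ∧ ∀ t, y t ≤ 1 :=
    ⟨fun t => (1 + u t)⁻¹, (c2.const_add 1).inv₀ fun t => (p0 t).ne', fun t => by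
      simp only [Complex.ofReal_injective (h1.per t)], fun t => inv_mul_cancel₀ (p0 t).ne',
      fun t => inv_pos.mpr (p0 t), fun t => inv_le_one_of_one_le₀ (by linarith [h2 t])⟩
  obtain ⟨v, hv⟩ : ∃ v : ℝ → ℝ, v = fun t => ∫ s in (0 : ℝ)..1, K s * y (t - s) := ⟨_, rfl⟩
  have t1 : TP (120 * L) fun t => v t := by
    have := k1.conv (w' := fun t => y t) (by fun_prop) fun t => by simp only [i0 t]
    simp only [← Complex.ofReal_mul, intervalIntegral.integral_ofReal] at this
    exact hv ▸ this.mono (by omega)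
  have k5 : ∫ s in (0 : ℝ)..1, K s * (L * ‖1 - ee s‖) ≤ 1 := by
    simp only [mul_left_comm _ (L : ℝ)]
    rw [intervalIntegral.integral_const_mul]
    refine (mul_le_mul_of_nonneg_left k4 L.cast_nonneg).trans (le_of_eq ?_)
    push_cast
    field_simp
  have key : ∀ (g : ℝ → ℝ) (a b : ℝ), Continuous g → 0 ≤ b → (∀ s, g s ≤ a + b * (L * ‖1 - ee s‖)) →
      ∫ s in (0 : ℝ)..1, K s * g s ≤ a + b := fun g a b g1 b0 g2 => by
    calc _ ≤ ∫ s in (0 : ℝ)..1, a * K s + b * (K s * (L * ‖1 - ee s‖)) :=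
          intervalIntegral.integral_mono_on zero_le_one (Continuous.intervalIntegrable
            (by fun_prop) _ _) (Continuous.intervalIntegrable (by fun_prop) _ _) fun s _ => by
            linarith [mul_le_mul_of_nonneg_left (g2 s) (k2 s)]
      _ ≤ _ := by
          rw [intervalIntegral.integral_add (Continuous.intervalIntegrable (by fun_prop) _ _)
            (Continuous.intervalIntegrable (by fun_prop) _ _), intervalIntegral.integral_const_mul,
            intervalIntegral.integral_const_mul, k3]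
          linarith [mul_le_mul_of_nonneg_left k5 b0]
  have e1 : ∀ t s, |u t - u (t - s)| ≤ L * ‖1 - ee s‖ := fun t s => by
    refine (h3 _ _).trans (le_of_eq ?_)
    rw [show ee t - ee (t - s) = ee (t - s) * -(1 - ee s) by
      rw [neg_sub, mul_sub, ← ee_add, sub_add_cancel, mul_one], norm_mul, ee_norm, norm_neg, one_mul]
  have sc : ∀ (a t : ℝ), a * v t = ∫ s in (0 : ℝ)..1, K s * (a * y (t - s)) := fun a t => by
    simp only [hv, mul_left_comm _ a, intervalIntegral.integral_const_mul]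
  have v0 : ∀ t, 0 ≤ v t := fun t => hv ▸ intervalIntegral.integral_nonneg zero_le_one
    fun s _ => mul_nonneg (k2 s) (i2 _).le
  have v1 : ∀ t, v t ≤ 1 := fun t => by
    simpa [hv] using key (fun s => y (t - s)) 1 0 (by fun_prop) le_rfl
      fun s => by simpa using i3 _
  have v2 : ∀ t, u t * v t ≤ 2 := fun t => by
    rw [sc]
    refine (key _ 1 1 (by fun_prop) zero_le_one fun s => ?_).trans (by norm_num)
    have b0 : (0 : ℝ) ≤ L * ‖1 - ee s‖ := by positivity
    nlinarith [i1 (t - s), i2 (t - s), i3 (t - s), (abs_le.mp (e1 t s)).2]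
  have v3 : ∀ t, 1 ≤ v t * (2 + u t) := fun t => by
    have b0 : 0 < 2 + u t := by linarith [h2 t]
    have b1 := key (fun s => -(2 + u t) ^ 2 * y (t - s)) (-(3 + u t)) 1 (by fun_prop)
      zero_le_one fun s => by
      have := mul_nonneg (i2 (t - s)).le (sq_nonneg (2 + u t - (1 + u (t - s))))
      have b2 : y (t - s) * (2 + u t - (1 + u (t - s))) ^ 2 =
          (2 + u t) ^ 2 * y (t - s) - 2 * (2 + u t) + (1 + u (t - s)) := by
        linear_combination (-2 * (2 + u t) + (1 + u (t - s))) * i1 (t - s)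
      linarith [(abs_le.mp (e1 t s)).1]
    rw [← sc] at b1
    nlinarith
  have v4 : ∀ t s, |v t - v s| ≤ L * ‖ee t - ee s‖ * v t := fun t s => by
    rw [sc]
    simp only [hv]
    rw [← intervalIntegral.integral_sub (Continuous.intervalIntegrable (by fun_prop) _ _)
      (Continuous.intervalIntegrable (by fun_prop) _ _)]
    refine (intervalIntegral.abs_integral_le_integral_abs zero_le_one).trans
      (intervalIntegral.integral_mono_on zero_le_one (Continuous.intervalIntegrable
      (by fun_prop) _ _) (Continuous.intervalIntegrable (by fun_prop) _ _) fun x _ => ?_)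
    have b1 := h3 (s - x) (t - x)
    rw [show ee (s - x) - ee (t - x) = ee (-x) * -(ee t - ee s) by
      rw [sub_eq_add_neg s, sub_eq_add_neg t, ee_add, ee_add]; ring, norm_mul, ee_norm, norm_neg,
      one_mul] at b1
    rw [← mul_sub, abs_mul, abs_of_nonneg (k2 x), show y (t - x) - y (s - x) =
      (u (s - x) - u (t - x)) * y (s - x) * y (t - x) by
        linear_combination y (s - x) * i1 (t - x) - y (t - x) * i1 (s - x),
      abs_mul, abs_mul, abs_of_pos (i2 _), abs_of_pos (i2 _)]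
    refine mul_le_mul_of_nonneg_left (mul_le_mul_of_nonneg_right ?_ (i2 _).le) (k2 x)
    exact (mul_le_of_le_one_right (abs_nonneg _) (i3 _)).trans b1
  refine ⟨fun t => u t * v t, by simpa using h1.mul t1, fun t => ⟨mul_nonneg (h2 t) (v0 t),
    mul_le_of_le_one_right (h2 t) (v1 t), v2 t, by nlinarith [v3 t, h2 t]⟩, fun t s => ?_⟩
  have b0 : (0 : ℝ) ≤ L * ‖ee t - ee s‖ := by positivity
  rw [show u t * v t - u s * v s = (u t - u s) * v s + u t * (v t - v s) by ring]
  refine (abs_add_le _ _).trans ?_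
  rw [abs_mul, abs_mul, abs_of_nonneg (v0 s), abs_of_nonneg (h2 t)]
  nlinarith [mul_le_mul (h3 t s) (v1 s) (v0 s) b0, mul_le_mul_of_nonneg_left (v4 t s) (h2 t),
    mul_le_mul_of_nonneg_left (v2 t) b0]

end Pool.Agent.H.MP_034cab_an
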