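import Pool.Agent.H.MP_034cab_an.B

set_option autoImplicit false

namespace Pool.Agent.H.MP_034cab_an
open Finset Filter Topology Real MeasureTheory Pool.Agent.H.MP_f44585_an
  Pool.Agent.H.MP_0447a2_lc ComplexConjugate Polynomial

theorem maxp {F : ℂ → ℂ} (hF : Differentiable ℂ F) {C : ℝ} (h : ∀ t, ‖F (ee t)‖ ≤ C) {z : ℂ}
    (hz : ‖z‖ ≤ 1) : ‖F z‖ ≤ C := by
  refine Complex.norm_le_of_forall_mem_frontier_norm_le (U := Metric.ball 0 1)
    Metric.isBounded_ball hF.diffContOnCl (fun w hw => ?_)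
    (by rwa [closure_ball _ one_ne_zero, mem_closedBall_zero_iff])
  rw [frontier_ball _ one_ne_zero, mem_sphere_zero_iff_norm, Complex.norm_eq_one_iff] at hw
  obtain ⟨θ, rfl⟩ := hw
  have := h (θ / (2 * π))
  rwa [ee, mul_div_cancel₀ _ (by positivity), mul_comm] at this

theorem pwl {x y : ℂ} (hx : ‖x‖ = 1) (hy : ‖y‖ = 1) (N : ℕ) : ‖x ^ N - y ^ N‖ ≤ N * ‖x - y‖ := by
  rw [← geom_sum₂_mul, norm_mul]
  refine mul_le_mul_of_nonneg_right ((norm_sum_le _ _).trans ?_) (norm_nonneg _)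
  simp [hx, hy]

theorem TP.intr {d N : ℕ} {g : ℝ → ℝ} (h : TP d fun t => g t) (hN : d < N) :
    ∫ t in (0 : ℝ)..1, g t * (ee t ^ N).re = 0 := by
  have e := congrArg Complex.re (h.int hN)
  rw [int_re (g := fun t => g t * ee t ^ N) (h.cont.mul (ee_cont.pow N))] at e
  simpa only [Complex.re_ofReal_mul, Complex.zero_re] using e

def Inv (L : ℕ) (k : ℝ) (f : ℂ[X]) : Prop :=
  f.natDegree ≤ L ∧ (∀ t, 0 ≤ (f.eval (ee t)).re) ∧
    (∀ t s, |(f.eval (ee t)).re - (f.eval (ee s)).re| ≤ L * ‖ee t - ee s‖) ∧ f.coeff 0 = 1 ∧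
    (∀ n, ‖f.coeff n‖ ≤ 2) ∧
    (∀ z : ℂ, ‖z‖ ≤ 1 → ‖f.derivative.eval z‖ ≤ 1024 * ∑ n ∈ range L, ‖z‖ ^ n) ∧
    k ≤ (8 + ∫ t in (0 : ℝ)..1, (f.eval (ee t)).re ^ 2) ^ 2

theorem step {L : ℕ} (hL : 1 ≤ L) {k : ℝ} {f : ℂ[X]} (h : Inv L k f) :
    ∃ g, Inv (512 * L) (k + 1) g ∧ ∀ n ≤ L, g.coeff n = f.coeff n := by
  obtain ⟨h1, h2, h3, h4, h5, h6, h7⟩ := h
  have c := ee_cont
  have t1 := (TP.poly h1).re
  obtain ⟨w, t2, w1, w2⟩ := smooth hL t1 h2 h3
  have c1 : Continuous w := Complex.continuous_re.comp t2.cont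
  have i1 := (t1.mul t2).mono (d' := 122 * L) (by omega)
  have i2 := (t2.mul t2).mono (d' := 242 * L) (by omega)
  simp only [← Complex.ofReal_mul] at i1 i2
  obtain ⟨Q, q1, q2⟩ := t2
  obtain ⟨W, hW⟩ : ∃ W : ℂ[X], W = X ^ (121 * L) * Q := ⟨_, rfl⟩
  have e1 : ∀ t, W.eval (ee t) = w t * ee t ^ (242 * L) := fun t => by
    rw [hW, eval_mul, q2, eval_pow, eval_X]
    ring
  have n1 : ∀ t N, ‖ee t ^ N‖ = 1 := fun t N => by rw [norm_pow, ee_norm, one_pow]
  have e2 : ∀ t s, ‖W.eval (ee t) - W.eval (ee s)‖ ≤ 487 * L * ‖ee t - ee s‖ := fun t s => by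
    rw [e1, e1, show w t * ee t ^ (242 * L) - w s * ee s ^ (242 * L) = (w t - w s : ℝ) *
      ee t ^ (242 * L) + w s * (ee t ^ (242 * L) - ee s ^ (242 * L)) by push_cast; ring]
    refine (norm_add_le _ _).trans ?_
    rw [norm_mul, norm_mul, n1, Complex.norm_real, Complex.norm_real, Real.norm_eq_abs,
      Real.norm_of_nonneg (w1 s).1]
    have := mul_le_mul (w1 s).2.2.1 (pwl (ee_norm t) (ee_norm s) (242 * L)) (norm_nonneg _)
      zero_le_two
    push_cast at this
    linarith [w2 t s]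
  have e3 : ∀ n ≤ L, (f + W).coeff n = f.coeff n := fun n hn => by
    rw [coeff_add, hW, coeff_X_pow_mul', if_neg (by omega), add_zero]
  have e4 : ∀ t, ((f + W).eval (ee t)).re = (f.eval (ee t)).re + w t * (ee t ^ (242 * L)).re :=
    fun t => by rw [eval_add, e1, Complex.add_re, Complex.re_ofReal_mul]
  refine ⟨f + W, ⟨natDegree_add_le_of_degree_le (by omega) (hW ▸ natDegree_mul_le.trans
    (by rw [natDegree_X_pow]; omega)), fun t => ?_, fun t s => ?_, (e3 0 L.zero_le).trans h4,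
    fun n => ?_, fun z hz => ?_, ?_⟩, e3⟩
  · have := (abs_le.mp ((Complex.abs_re_le_norm _).trans (n1 t (242 * L)).le)).1
    rw [e4]
    nlinarith [(w1 t).1, (w1 t).2.1]
  · have := (Complex.abs_re_le_norm _).trans (e2 t s)
    have b0 : (0 : ℝ) ≤ L * ‖ee t - ee s‖ := by positivity
    simp only [eval_add, Complex.add_re, Complex.sub_re] at this ⊢
    rw [add_sub_add_comm]
    refine (abs_add_le _ _).trans ?_
    push_cast
    linarith [h3 t s]
  · rcases le_or_gt n L with hn | hn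
    · rw [e3 n hn]; exact h5 n
    rw [coeff_add, coeff_eq_zero_of_natDegree_lt (h1.trans_lt hn), zero_add, ← pcoef]
    refine (intervalIntegral.norm_integral_le_of_norm_le_const (C := 2) fun t _ => ?_).trans (by simp)
    rw [e1, norm_mul, norm_mul, Complex.norm_conj, n1, n1, Complex.norm_real,
      Real.norm_of_nonneg (w1 t).1]
    linarith [(w1 t).2.2.1]
  · obtain ⟨R, hR⟩ : X ^ (2 * L) ∣ W.derivative := (pow_dvd_pow X (by omega)).trans
      (pow_sub_one_dvd_derivative_of_pow_dvd ⟨Q, hW⟩)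
    have b1 : ‖R.eval z‖ ≤ 1024 * L := maxp (F := fun z => R.eval z) R.differentiable (fun t => by
      have d1 : HasDerivAt ee (ee t * (Complex.I * (2 * π * 1 : ℝ))) t :=
        ((((hasDerivAt_id t).const_mul (2 * π)).ofReal_comp).const_mul Complex.I).cexp
      have d2 := ((W.hasDerivAt (ee t)).comp_of_eq t d1 rfl).le_of_lip' (C := 487 * L * 7)
        (by positivity) (Eventually.of_forall fun s => (e2 s t).trans (by
          rw [mul_assoc _ (7 : ℝ)]
          exact mul_le_mul_of_nonneg_left (ee_sub s t) (by positivity)))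
      rw [hR, eval_mul, eval_pow, eval_X, norm_mul, norm_mul, n1, norm_mul, norm_mul, ee_norm,
        Complex.norm_I, Complex.norm_real, Real.norm_of_nonneg (by positivity)] at d2
      nlinarith [pi_gt_three, norm_nonneg (R.eval (ee t)), L.cast_nonneg (α := ℝ)]) hz
    have b2 : L * ‖z‖ ^ (2 * L) ≤ ∑ n ∈ Ico L (2 * L), ‖z‖ ^ n := by
      refine le_trans (le_of_eq ?_) (card_nsmul_le_sum _ _ (‖z‖ ^ (2 * L)) fun n hn =>
        pow_le_pow_of_le_one (norm_nonneg _) hz (mem_Ico.mp hn).2.le)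
      rw [Nat.card_Ico, nsmul_eq_mul, show 2 * L - L = L by omega]
    have b3 := sum_le_sum_of_subset_of_nonneg (f := fun n => ‖z‖ ^ n)
      (range_mono (by omega : 2 * L ≤ 512 * L)) fun _ _ _ => by positivity
    rw [← sum_range_add_sum_Ico _ (by omega : L ≤ 2 * L)] at b3
    rw [derivative_add, eval_add, hR, eval_mul, eval_pow, eval_X]
    refine (norm_add_le _ _).trans ?_
    rw [norm_mul, norm_pow]
    nlinarith [h6 z hz, mul_le_mul_of_nonneg_left b1 (pow_nonneg (norm_nonneg z) (2 * L))]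
  have b0 : ∫ t in (0 : ℝ)..1, (f.eval (ee t)).re = 1 := by
    have := congrArg Complex.re (pcoef f 0)
    rw [int_re (by fun_prop), h4] at this
    simpa using this
  have b1 := i1.intr (N := 242 * L) (by omega)
  have b2 := i2.intr (N := 242 * L * 2) (by omega)
  simp only [e4]
  obtain ⟨u, hu⟩ : ∃ u : ℝ → ℝ, u = fun t => (f.eval (ee t)).re := ⟨_, rfl⟩
  have c2 : Continuous u := by rw [hu]; fun_prop
  simp only [show ∀ t, (f.eval (ee t)).re = u t from fun t => by rw [hu]] at *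
  have ii : ∀ g : ℝ → ℝ, Continuous g → IntervalIntegrable g volume 0 1 :=
    fun g hg => hg.intervalIntegrable _ _
  obtain ⟨m, hm⟩ : ∃ m, m = ∫ t in (0 : ℝ)..1, u t ^ 2 := ⟨_, rfl⟩
  have m0 : 0 < 8 + m := by
    have := intervalIntegral.integral_nonneg (μ := volume) (f := fun t => u t ^ 2) zero_le_one
      fun _ _ => sq_nonneg _
    linarith
  have b3 : ∫ t in (0 : ℝ)..1, (u t + w t * (ee t ^ (242 * L)).re) ^ 2 =
      m + (∫ t in (0 : ℝ)..1, w t ^ 2) / 2 := by
    calc _ = ∫ t in (0 : ℝ)..1, u t ^ 2 + w t ^ 2 / 2 + 2 * (u t * w t * (ee t ^ (242 * L)).re) +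
          w t * w t * (ee t ^ (242 * L * 2)).re / 2 := by
          refine intervalIntegral.integral_congr fun t _ => ?_
          have d1 := n1 t (242 * L)
          simp only [pow_mul _ (242 * L) 2]
          generalize ee t ^ (242 * L) = x at d1
          have d2 := Complex.sq_norm x
          rw [d1, Complex.normSq_apply] at d2
          simp only [sq x, Complex.mul_re]
          linear_combination w t ^ 2 / 2 * d2.symm
      _ = _ := by
          rw [intervalIntegral.integral_add (ii _ (by fun_prop)) (ii _ (by fun_prop)),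
            intervalIntegral.integral_add (ii _ (by fun_prop)) (ii _ (by fun_prop)),
            intervalIntegral.integral_add (ii _ (by fun_prop)) (ii _ (by fun_prop)),
            intervalIntegral.integral_const_mul, intervalIntegral.integral_div,
            intervalIntegral.integral_div, b1, b2, ← hm]
          ring
  have b4 : ∫ t in (0 : ℝ)..1, 2 * (8 + m) * u t ≤
      ∫ t in (0 : ℝ)..1, (8 + m) ^ 2 * w t ^ 2 + (4 + 4 * u t + u t ^ 2) :=
    intervalIntegral.integral_mono_on zero_le_one (ii _ (by fun_prop)) (ii _ (by fun_prop))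
      fun t _ => by
        nlinarith [sq_nonneg ((8 + m) * w t - (2 + u t)),
          mul_le_mul_of_nonneg_left (w1 t).2.2.2 m0.le]
  rw [intervalIntegral.integral_add (ii _ (by fun_prop)) (ii _ (by fun_prop)),
    intervalIntegral.integral_add (ii _ (by fun_prop)) (ii _ (by fun_prop)),
    intervalIntegral.integral_add (ii _ (by fun_prop)) (ii _ (by fun_prop)),
    intervalIntegral.integral_const_mul, intervalIntegral.integral_const_mul,
    intervalIntegral.integral_const_mul, intervalIntegral.integral_const, b0, ← hm] at b4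
  rw [b3]
  rw [← hm] at h7
  generalize ∫ t in (0 : ℝ)..1, w t ^ 2 = I at b4 ⊢
  have b5 : 1 ≤ (8 + m) * I := le_of_mul_le_mul_left (by simp at b4; nlinarith) m0
  nlinarith [sq_nonneg I]

theorem lower : ∃ a : ℕ → ℂ, Rd a ∧ a 0 = 1 ∧ (∀ z, ‖z‖ < 1 → 0 ≤ (PS a z).re) ∧
    (∀ z, ‖z‖ < 1 → (1 - ‖z‖ ^ 2) * ‖PS (DD a) z‖ ≤ 2048) ∧
    ∀ k : ℕ, √k - 9 ≤ ∑ n ∈ Icc 1 (512 ^ k), ‖a n‖ ^ 2 := by
  have c := ee_cont
  have p0 : ∀ k, 1 ≤ 512 ^ k := fun k => Nat.one_le_pow _ _ (by norm_num)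
  have h0 : ∀ (k : ℕ) (f : ℂ[X]), ∃ g, Inv (512 ^ k) k f →
      Inv (512 ^ (k + 1)) (k + 1 : ℕ) g ∧ ∀ n ≤ 512 ^ k, g.coeff n = f.coeff n := fun k f => by
    by_cases h : Inv (512 ^ k) k f
    · obtain ⟨g, hg⟩ := step (p0 k) h
      exact ⟨g, fun _ => by rwa [pow_succ', Nat.cast_succ]⟩
    · exact ⟨f, fun e => absurd e h⟩
  choose nx h0 using h0
  obtain ⟨f, s0, s1⟩ : ∃ s : ℕ → ℂ[X], s 0 = 1 ∧ ∀ k, s (k + 1) = nx k (s k) :=
    ⟨fun n => Nat.rec 1 nx n, rfl, fun _ => rfl⟩
  have h1 : ∀ k : ℕ, Inv (512 ^ k) k (f k) := fun k => by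
    induction k with
    | zero =>
      rw [s0]
      refine ⟨by simp, by simp, by simp, by simp, fun n => ?_, by simp, by simp; positivity⟩
      rw [coeff_one]
      split_ifs <;> simp
    | succ k ih => exact s1 k ▸ (h0 k _ ih).1
  have h2 : ∀ j n, n ≤ 512 ^ j → ∀ k, j ≤ k → (f k).coeff n = (f j).coeff n := fun j n hn k hk => by
    induction k, hk using Nat.le_induction with
    | base => rfl
    | succ k hk ih =>
      rw [s1, (h0 k _ (h1 k)).2 n (hn.trans (Nat.pow_le_pow_right (by norm_num) hk)), ih]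
  obtain ⟨a, ha⟩ : ∃ a : ℕ → ℂ, ∀ k n, n ≤ 512 ^ k → (f k).coeff n = a n :=
    ⟨fun n => (f n).coeff n, fun k n hn => (h2 k n hn _ (le_max_left k n)).symm.trans
      (h2 n n (Nat.lt_pow_self (by norm_num)).le _ (le_max_right k n))⟩
  have h3 : Rd a := (rd_of fun r r0 r1 => ⟨2, fun n => by
    rw [← ha n n (Nat.lt_pow_self (by norm_num)).le]
    exact (mul_le_of_le_one_right (norm_nonneg _) (pow_le_one₀ r0.le r1.le)).trans
      ((h1 n).2.2.2.2.1 n)⟩).1
  have tt : Tendsto (fun k => 512 ^ k) atTop atTop := tendsto_pow_atTop_atTop_of_one_lt (by norm_num)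
  have a0 : a 0 = 1 := (ha 0 0 (Nat.zero_le _)).symm.trans (h1 0).2.2.2.1
  refine ⟨a, h3, a0, fun z hz => ?_, fun z hz => ?_, fun k => ?_⟩
  · refine ge_of_tendsto' ((Complex.continuous_re.tendsto _).comp
      ((h3.sum hz).of_norm.hasSum.tendsto_sum_nat.comp ((tendsto_add_atTop_nat 1).comp tt)))
      fun k => ?_
    have b1 := maxp (F := fun z => Complex.exp (-(f k).eval z)) (f k).differentiable.neg.cexp
      (C := 1) (fun t => by simpa [Complex.norm_exp] using (h1 k).2.1 t) hz.le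
    rw [Complex.norm_exp, Real.exp_le_one_iff, Complex.neg_re, neg_nonpos,
      eval_eq_sum_range' (Nat.lt_succ_of_le (h1 k).1), sum_congr rfl fun n hn => by
        rw [ha k n (Nat.lt_succ_iff.mp (mem_range.mp hn))]] at b1
    exact b1
  · have b0 : ‖PS (DD a) z‖ ≤ 1024 * (1 - ‖z‖)⁻¹ := by
      refine le_of_tendsto' (((h3.dd.sum hz).of_norm.hasSum.tendsto_sum_nat.comp tt).norm)
        fun k => ?_
      have b1 := (h1 k).2.2.2.2.2.1 z hz.le
      rw [eval_eq_sum_range' (n := 512 ^ k) ((natDegree_derivative_le _).trans_lt (by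
        have := (h1 k).1
        have := p0 k
        omega)), sum_congr rfl (g := fun n => DD a n * z ^ n) fun n hn => by
          rw [coeff_derivative, ha k _ (mem_range.mp hn), DD, mul_comm (a _)]] at b1
      refine b1.trans (mul_le_mul_of_nonneg_left ?_ (by norm_num))
      rw [← tsum_geometric_of_lt_one (norm_nonneg z) hz]
      exact (summable_geometric_of_lt_one (norm_nonneg z) hz).sum_le_tsum _ fun _ _ => by positivity
    rw [← div_eq_mul_inv, le_div_iff₀ (by linarith)] at b0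
    nlinarith [norm_nonneg (PS (DD a) z), mul_nonneg (norm_nonneg (PS (DD a) z)) (sub_pos.mpr hz).le]
  have b1 := congrArg Complex.re (parsP (f k) (f k)).tsum_eq
  rw [int_re (by fun_prop), tsum_eq_sum (s := range (512 ^ k + 1)) fun n hn => by
    rw [coeff_eq_zero_of_natDegree_lt ((h1 k).1.trans_lt (by simpa using hn)), zero_mul],
    sum_congr rfl fun n hn => by rw [ha k n (Nat.lt_succ_iff.mp (mem_range.mp hn))],
    range_eq_Ico, sum_eq_sum_Ico_succ_bot (Nat.succ_pos _), a0] at b1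
  simp only [Complex.mul_conj, Complex.normSq_eq_norm_sq, Complex.add_re, Complex.re_sum,
    Complex.ofReal_re, norm_one, one_pow, zero_add] at b1
  have b2 : ∫ t in (0 : ℝ)..1, ((f k).eval (ee t)).re ^ 2 ≤
      ∫ t in (0 : ℝ)..1, ‖(f k).eval (ee t)‖ ^ 2 :=
    intervalIntegral.integral_mono_on zero_le_one (Continuous.intervalIntegrable (by fun_prop) _ _)
      (Continuous.intervalIntegrable (by fun_prop) _ _) fun t _ => by
        rw [← sq_abs]
        exact pow_le_pow_left₀ (abs_nonneg _) (Complex.abs_re_le_norm _) 2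
  have b3 := Real.sqrt_le_sqrt (h1 k).2.2.2.2.2.2
  rw [Real.sqrt_sq (add_nonneg (by norm_num) (intervalIntegral.integral_nonneg zero_le_one
    fun _ _ => sq_nonneg _))] at b3
  rw [← Finset.Ico_add_one_right_eq_Icc]
  rw [Nat.succ_eq_add_one] at b1
  linarith

end Pool.Agent.H.MP_034cab_an
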